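import Pool.Agent.Work.MP_3d425c_gt.Bg.LatEnd
import Pool.Agent.Work.MP_3d425c_gt.Sv.Wall

/-! Centralisers in a torsion-free discrete subgroup of `PSL(2, ℂ)`. -/

namespace Pool.Agent.Work.MP_3d425c_gt.Lt
open Matrix Set

theorem z2_of_disc {H : Type*} [Group H] (f : H →* Multiplicative ℂ) (hinj : Function.Injective f)
    (hfin : {b | ‖(f b).toAdd‖ < 1}.Finite) :
    IsCyclic H ∨ Nonempty (H ≃* Multiplicative (ℤ × ℤ)) := by
  let L : Submodule ℤ ℂ := (Subgroup.toAddSubgroup' f.range).toIntSubmodule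
  have hd : DiscreteTopology L := by
    refine discreteTopology_iff_isOpen_singleton_zero.2
      ⟨Metric.ball 0 1 \ (((fun b => (f b).toAdd) '' {b | ‖(f b).toAdd‖ < 1}) \ {0}),
        Metric.isOpen_ball.sdiff ((hfin.image _).subset sdiff_subset).isClosed, ?_⟩
    ext ⟨x, b, hb⟩
    have e : (f b).toAdd = x := congrArg Multiplicative.toAdd hb
    constructor
    · rintro ⟨h1, h2⟩
      by_contra h
      exact h2 ⟨⟨b, by rw [mem_ofPred_eq, e]; simpa using h1, e⟩, fun d => h (Subtype.ext d)⟩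
    · intro h
      have h0 : x = 0 := congrArg Subtype.val h
      exact ⟨by simp [h0], fun d => d.2 h0⟩
  let g : H →* Multiplicative L := MonoidHom.mk'
    (fun b => Multiplicative.ofAdd ⟨(f b).toAdd, b, rfl⟩) fun a b =>
      congrArg Multiplicative.ofAdd (Subtype.ext (congrArg Multiplicative.toAdd (f.map_mul a b)))
  have hg : Function.Bijective g := ⟨fun a b h => hinj (congrArg
    (fun v : Multiplicative L => Multiplicative.ofAdd v.toAdd.1) h), fun v => by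
      obtain ⟨b, hb⟩ := v.toAdd.2
      exact ⟨b, congrArg Multiplicative.ofAdd (Subtype.ext (congrArg Multiplicative.toAdd hb))⟩⟩
  let e := MulEquiv.ofBijective g hg
  have hr : Module.finrank ℤ L ≤ 2 := by
    have h1 := Real.finrank_eq_int_finrank_of_discrete (s := (L : Set ℂ))
      (by rwa [Submodule.span_eq])
    rw [Set.finrank, Set.finrank, Submodule.span_eq] at h1
    rw [← h1, ← Complex.finrank_real_complex]
    exact Submodule.finrank_le _
  rcases hr.eq_or_lt with h | h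
  · exact .inr ⟨e.trans (LinearEquiv.ofFinrankEq (R := ℤ) L (ℤ × ℤ)
      (by simp [h])).toAddEquiv.toMultiplicative⟩
  · obtain ⟨v, hv⟩ := finrank_le_one_iff.1 (Nat.lt_succ_iff.1 h)
    refine .inl ⟨e.symm (Multiplicative.ofAdd v), fun b => ?_⟩
    obtain ⟨n, hn⟩ := hv (e b).toAdd
    refine ⟨n, e.injective ?_⟩
    rw [map_zpow, e.apply_symm_apply]
    exact congrArg Multiplicative.ofAdd hn

variable {G : Type} [Group G]

variable {ρ : G →* ProjectiveSpecialLinearGroup (Fin 2) ℂ}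

/-- the conjugate representation -/
def cj (ρ : G →* ProjectiveSpecialLinearGroup (Fin 2) ℂ) (z : S2) :
    G →* ProjectiveSpecialLinearGroup (Fin 2) ℂ :=
  (MulAut.conj (QuotientGroup.mk z : ProjectiveSpecialLinearGroup (Fin 2) ℂ)⁻¹).toMonoidHom.comp ρ

theorem cj_lift {a : G} {x : S2} (hx : QuotientGroup.mk x = ρ a) (z : S2) :
    QuotientGroup.mk (z⁻¹ * x * z) = cj ρ z a := by
  simp [cj, hx]

theorem Dsc.cj (D : Dsc ρ) (z : S2) : Dsc (cj ρ z) := fun R => by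
  obtain ⟨S, hS⟩ := exists_bd z
  refine (D (2 * (2 * S * R) * S)).subset ?_
  rintro g ⟨y, hy, hb⟩
  refine ⟨z * y * z⁻¹, ?_, (Bd.mul (Bd.mul hS hb) (Bd.inv hS) :)⟩
  simp only [QuotientGroup.mk_mul, QuotientGroup.mk_inv, hy, Lt.cj]
  simp [mul_assoc]

theorem Dsc.ell (D : Dsc ρ) {a : G} {x : S2} (hx : QuotientGroup.mk x = ρ a) (h : x 1 0 = 0)
    (h' : x 0 1 = 0) (h1 : ‖x 0 0‖ = 1) : IsOfFinOrder a := by
  by_contra hfo
  refine (infinite_range_of_injective (injective_pow_iff_not_isOfFinOrder.2 hfo))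
    ((D 1).subset ?_)
  rintro _ ⟨k, rfl⟩
  refine ⟨x ^ k, by simp only [QuotientGroup.mk_pow, hx, map_pow], fun i j => ?_⟩
  obtain ⟨p1, p2, p3, p4⟩ := pow_tri h h1 k
  fin_cases i <;> fin_cases j
  · exact p2.le
  · exact p4.trans (by simp [h'])
  · exact (congrArg norm p1).trans_le (by simp)
  · exact p3.le

variable (D : Dsc ρ) (tf : ∀ a : G, a ≠ 1 → ¬ IsOfFinOrder a)
include D tf

theorem Dsc.inj : Function.Injective ρ := (injective_iff_map_eq_one ρ).2 fun a ha =>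
  by_contra fun h => tf a h (D.ell (x := 1) (by rw [ha]; rfl) (by simp) (by simp) (by simp))

theorem Dsc.comm {a b : G} {x y : S2} (hx : QuotientGroup.mk x = ρ a)
    (hy : QuotientGroup.mk y = ρ b) (h : x * y = y * x) : a * b = b * a :=
  D.inj tf (by rw [map_mul, map_mul, ← hx, ← hy, ← QuotientGroup.mk_mul, h, QuotientGroup.mk_mul])

omit D tf in
theorem exists_diag {w : S2} (hz : w 1 0 = 0) (hne : w 0 0 ≠ w 1 1) : ∃ u : S2,
    (u⁻¹ * w * u) 1 0 = 0 ∧ (u⁻¹ * w * u) 0 1 = 0 ∧ (u⁻¹ * w * u) 0 0 = w 0 0 := by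
  have hne' : w 1 1 - w 0 0 ≠ 0 := sub_ne_zero.2 hne.symm
  refine ⟨mk2 1 (w 0 1 / (w 1 1 - w 0 0)) 0 1 (by ring), ?_, ?_, ?_⟩ <;>
    simp only [inv_mk2, mul_ent, mk2_00, mk2_01, mk2_10, mk2_11, hz]
  · ring
  · field_simp
    ring
  · ring

theorem Dsc.tri {a : G} (ha : a ≠ 1) {x : S2} (hx : QuotientGroup.mk x = ρ a) (h : x 1 0 = 0) :
    (x 0 0 = x 1 1 ∧ x 0 1 ≠ 0) ∨ ‖x 0 0‖ ≠ 1 := by
  have hd := det_ent x
  by_cases e : x 0 0 = x 1 1
  · refine .inl ⟨e, fun d => tf a ha (D.ell hx h d (norm_sign ?_))⟩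
    rw [h, ← e] at hd
    linear_combination hd
  · obtain ⟨u, u1, u2, u3⟩ := exists_diag h e
    exact .inr fun d => tf a ha ((D.cj u).ell (cj_lift hx u) u1 u2 (u3 ▸ d))

/-- Normal forms: loxodromic or parabolic. -/
theorem Dsc.normal {a : G} (ha : a ≠ 1) : ∃ z x : S2, QuotientGroup.mk x = Lt.cj ρ z a ∧
    x 1 0 = 0 ∧ ((x 0 1 = 0 ∧ ‖x 0 0‖ ≠ 1) ∨ (x 0 0 = x 1 1 ∧ x 0 1 ≠ 0)) := by
  obtain ⟨x, hx⟩ := QuotientGroup.mk_surjective (ρ a)
  obtain ⟨z, hz⟩ := exists_tri x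
  rcases (D.cj z).tri tf ha (cj_lift hx z) hz with h | h
  · exact ⟨z, _, cj_lift hx z, hz, .inr h⟩
  · have hd := det_ent (z⁻¹ * x * z)
    obtain ⟨u, u1, u2, u3⟩ := exists_diag hz fun e => h (norm_sign (by
      rw [hz, ← e] at hd
      linear_combination hd))
    have e : (z * u)⁻¹ * x * (z * u) = u⁻¹ * (z⁻¹ * x * z) * u := by group
    exact ⟨z * u, _, cj_lift hx _, e ▸ u1, .inl ⟨e ▸ u2, by rw [e, u3]; exact h⟩⟩

omit D tf in
theorem lift_rel {a b c d : G} {x y u v : S2} (hx : QuotientGroup.mk x = ρ a)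
    (hy : QuotientGroup.mk y = ρ b) (hu : QuotientGroup.mk u = ρ c)
    (hv : QuotientGroup.mk v = ρ d) (h : a * b = c * d) :
    ∃ e : ℂ, e ^ 2 = 1 ∧ ∀ i j, x i 0 * y 0 j + x i 1 * y 1 j =
      e * (u i 0 * v 0 j + u i 1 * v 1 j) := by
  obtain ⟨e, he, k⟩ := lift_sign (x := u * v) (y := x * y) (by
    rw [QuotientGroup.mk_mul, QuotientGroup.mk_mul, hx, hy, hu, hv, ← map_mul, ← map_mul, h])
  exact ⟨e, he, fun i j => by rw [← mul_ent, ← mul_ent, k]⟩

omit D tf in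
theorem lox_diag {a b : G} {x y : S2} (hx : QuotientGroup.mk x = ρ a)
    (hy : QuotientGroup.mk y = ρ b) (p10 : x 1 0 = 0) (p01 : x 0 1 = 0) (hn : ‖x 0 0‖ ≠ 1)
    (h : a * b = b * a) : y 1 0 = 0 ∧ y 0 1 = 0 := by
  obtain ⟨e, he, h1⟩ := lift_rel hx hy hy hx h
  have hd := det_ent x
  have q10 := h1 1 0
  have q01 := h1 0 1
  simp only [p10, p01, zero_mul, mul_zero, add_zero, zero_add, sub_zero] at q10 q01 hd
  have k : ∀ v : ℂ, v * (x 0 0 ^ 2 - e) = 0 → v = 0 := fun v hv =>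
    (mul_eq_zero.1 hv).resolve_right fun h => hn (by
      have h2 := congrArg norm (sub_eq_zero.1 h)
      rw [norm_sign he, norm_pow] at h2
      exact (pow_eq_one_iff_of_nonneg (norm_nonneg _) two_ne_zero).1 h2)
  refine ⟨k _ ?_, k _ ?_⟩
  · linear_combination (-e * x 0 0) * q10 + (e * y 1 0) * hd - (y 1 0 * x 0 0 ^ 2) * he
  · linear_combination (x 0 0) * q01 + (e * y 0 1) * hd

omit D tf in
/-- An element carrying one parabolic with fixed point `∞` to another one fixes `∞`. -/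
theorem par_tri {a b c : G} {x y w : S2} (hx : QuotientGroup.mk x = ρ a)
    (hy : QuotientGroup.mk y = ρ b) (hw : QuotientGroup.mk w = ρ c) (p10 : x 1 0 = 0)
    (p00 : x 0 0 = x 1 1) (p01 : x 0 1 ≠ 0) (w10 : w 1 0 = 0) (w00 : w 0 0 = w 1 1)
    (h : c * b = b * a) : y 1 0 = 0 ∧ w 0 0 * w 0 1 * y 1 1 = x 0 0 * x 0 1 * y 0 0 := by
  obtain ⟨e, he, h1⟩ := lift_rel hw hy hy hx h
  have hd := det_ent x
  have hy' := det_ent y
  have hw' := det_ent w
  have q00 := h1 0 0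
  have q01 := h1 0 1
  have q10 := h1 1 0
  have q11 := h1 1 1
  simp only [p10, w10, ← p00, ← w00, zero_mul, mul_zero, add_zero, zero_add, sub_zero]
    at q00 q01 q10 q11 hd hw'
  have t : w 0 0 = e * x 0 0 := by
    linear_combination (1 / 2 : ℂ) * (y 1 1 * q00 - y 1 0 * q01 - y 0 1 * q10 + y 0 0 * q11)
      - (w 0 0 - e * x 0 0) * hy'
  have e0 : e ≠ 0 := by rintro rfl; simp at he
  have z : y 1 0 = 0 := by
    have : y 1 0 * (e * x 0 1) = 0 := by linear_combination (y 1 1) * t - q11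
    exact (mul_eq_zero.1 this).resolve_right (mul_ne_zero e0 p01)
  refine ⟨z, ?_⟩
  linear_combination (w 0 0) * q01 + (e * y 0 0 * x 0 1 - w 0 0 * y 0 1) * t
    + (x 0 0 * x 0 1 * y 0 0) * he

omit D tf in
theorem par_comm {a b : G} {x y : S2} (hx : QuotientGroup.mk x = ρ a)
    (hy : QuotientGroup.mk y = ρ b) (p10 : x 1 0 = 0) (p00 : x 0 0 = x 1 1) (p01 : x 0 1 ≠ 0)
    (h : a * b = b * a) : y 1 0 = 0 ∧ y 0 0 = y 1 1 := by
  obtain ⟨h1, h2⟩ := par_tri hx hy hx p10 p00 p01 p10 p00 h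
  have hd := det_ent x
  rw [p10, mul_zero, sub_zero] at hd
  exact ⟨h1, (mul_left_cancel₀ (mul_ne_zero (left_ne_zero_of_mul_eq_one hd) p01) h2).symm⟩

theorem Dsc.cent_lox {a : G} {x : S2} (hx : QuotientGroup.mk x = ρ a) (p10 : x 1 0 = 0)
    (p01 : x 0 1 = 0) (hn : ‖x 0 0‖ ≠ 1) : IsCyclic (Subgroup.centralizer ({a} : Set G)) := by
  choose c hc using fun g => QuotientGroup.mk_surjective (ρ g)
  have hdiag : ∀ b ∈ Subgroup.centralizer ({a} : Set G), c b 1 0 = 0 ∧ c b 0 1 = 0 :=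
    fun b hb => lox_diag hx (hc b) p10 p01 hn (Subgroup.mem_centralizer_singleton_iff.1 hb).symm
  have hne : ∀ b ∈ Subgroup.centralizer ({a} : Set G), c b 0 0 * c b 1 1 = 1 := fun b hb => by
    have hd := det_ent (c b)
    rwa [(hdiag b hb).1, mul_zero, sub_zero] at hd
  have hpos : ∀ b ∈ Subgroup.centralizer ({a} : Set G), 0 < ‖c b 0 0‖ := fun b hb =>
    norm_pos_iff.2 (left_ne_zero_of_mul_eq_one (hne b hb))
  let f : Subgroup.centralizer ({a} : Set G) →* Multiplicative ℝ := MonoidHom.mk'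
    (fun b => Multiplicative.ofAdd (Real.log ‖c b 0 0‖)) fun g h => by
      obtain ⟨e, he, h1⟩ := lift_sign (x := c g * c h) (y := c (g * h)) (by
        rw [QuotientGroup.mk_mul, hc, hc, hc, map_mul])
      rw [← ofAdd_add, ← Real.log_mul (hpos _ g.2).ne' (hpos _ h.2).ne', Subgroup.coe_mul, h1,
        mul_ent, (hdiag _ h.2).1, mul_zero, add_zero, norm_mul, norm_sign he, one_mul, norm_mul]
  have hinj : Function.Injective f := (injective_iff_map_eq_one f).2 fun b hb => by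
    by_contra h
    refine tf b (fun e => h (Subtype.ext e)) (D.ell (hc b) (hdiag _ b.2).1 (hdiag _ b.2).2 ?_)
    have h2 : Real.log ‖c b 0 0‖ = 0 := hb
    exact Real.eq_one_of_pos_of_log_eq_zero (hpos _ b.2) h2
  refine cyc_of_disc f hinj (((D (Real.exp 1)).preimage Subtype.val_injective.injOn).subset ?_)
  rintro b ⟨h0, h1⟩
  refine ⟨c b, hc b, ?_⟩
  have l0 : 0 < Real.log ‖c b 0 0‖ := h0
  have l1 : Real.log ‖c b 0 0‖ < 1 := h1
  have m1 : ‖c b 0 0‖ ≤ Real.exp 1 := ((Real.log_lt_iff_lt_exp (hpos _ b.2)).1 l1).le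
  have m0 : 1 < ‖c b 0 0‖ := (Real.log_pos_iff (norm_nonneg _)).1 l0
  have m2 : ‖c b 0 0‖ * ‖c b 1 1‖ = 1 := by rw [← norm_mul, hne _ b.2, norm_one]
  intro i j
  fin_cases i <;> fin_cases j
  · exact m1
  · exact (congrArg norm (hdiag _ b.2).2).trans_le (by simpa using (Real.exp_pos 1).le)
  · exact (congrArg norm (hdiag _ b.2).1).trans_le (by simpa using (Real.exp_pos 1).le)
  · show ‖c b 1 1‖ ≤ Real.exp 1
    nlinarith [norm_nonneg (c b 1 1)]

omit D tf in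
theorem par_bd {y : S2} (h10 : y 1 0 = 0) (h00 : y 0 0 = y 1 1) {R : ℝ} (h1 : 1 ≤ R)
    (h : ‖y 0 0 * y 0 1‖ ≤ R) : ‖y 0 0‖ = 1 ∧ Bd R y := by
  have hd := det_ent y
  rw [h10, mul_zero, sub_zero, ← h00] at hd
  have n : ‖y 0 0‖ = 1 := norm_sign (by linear_combination hd)
  refine ⟨n, fun i j => ?_⟩
  fin_cases i <;> fin_cases j
  · exact n.le.trans h1
  · rwa [norm_mul, n, one_mul] at h
  · exact (congrArg norm h10).trans_le (by simpa using zero_le_one.trans h1)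
  · exact (congrArg norm h00.symm).trans_le (n.le.trans h1)

theorem Dsc.cent_par {a : G} {x : S2} (hx : QuotientGroup.mk x = ρ a) (p10 : x 1 0 = 0)
    (p00 : x 0 0 = x 1 1) (p01 : x 0 1 ≠ 0) : IsCyclic (Subgroup.centralizer ({a} : Set G)) ∨
      Nonempty (Subgroup.centralizer ({a} : Set G) ≃* Multiplicative (ℤ × ℤ)) := by
  choose c hc using fun g => QuotientGroup.mk_surjective (ρ g)
  have ht : ∀ b ∈ Subgroup.centralizer ({a} : Set G), c b 1 0 = 0 ∧ c b 0 0 = c b 1 1 :=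
    fun b hb => par_comm hx (hc b) p10 p00 p01 (Subgroup.mem_centralizer_singleton_iff.1 hb).symm
  have hs : ∀ b ∈ Subgroup.centralizer ({a} : Set G), c b 0 0 * c b 0 0 = 1 := fun b hb => by
    have hd := det_ent (c b)
    rwa [(ht b hb).1, mul_zero, sub_zero, ← (ht b hb).2] at hd
  let f : Subgroup.centralizer ({a} : Set G) →* Multiplicative ℂ := MonoidHom.mk'
    (fun b => Multiplicative.ofAdd (c b 0 0 * c b 0 1)) fun g h => by
      obtain ⟨e, he, h1⟩ := lift_sign (x := c g * c h) (y := c (g * h)) (by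
        rw [QuotientGroup.mk_mul, hc, hc, hc, map_mul])
      rw [← ofAdd_add, Subgroup.coe_mul, h1, h1, mul_ent, mul_ent, (ht _ h.2).1, ← (ht _ h.2).2]
      refine congrArg Multiplicative.ofAdd ?_
      linear_combination (c g 0 0 * c h 0 0 * (c g 0 0 * c h 0 1 + c g 0 1 * c h 0 0)) * he
        + (c h 0 0 * c h 0 1) * hs _ g.2 + (c g 0 0 * c g 0 1) * hs _ h.2
  have hinj : Function.Injective f := (injective_iff_map_eq_one f).2 fun b hb => by
    by_contra h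
    have h2 : c b 0 0 * c b 0 1 = 0 := hb
    exact tf b (fun e => h (Subtype.ext e)) (D.ell (hc b) (ht _ b.2).1
      ((mul_eq_zero.1 h2).resolve_left (left_ne_zero_of_mul_eq_one (hs _ b.2)))
      (norm_sign (by linear_combination hs _ b.2)))
  refine z2_of_disc f hinj (((D 1).preimage Subtype.val_injective.injOn).subset ?_)
  intro b hb
  exact ⟨c b, hc b, (par_bd (ht _ b.2).1 (ht _ b.2).2 le_rfl (le_of_lt hb)).2⟩

/-- Centralisers are cyclic or free abelian of rank two. -/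
theorem Dsc.cent (a : G) (ha : a ≠ 1) : IsCyclic (Subgroup.centralizer ({a} : Set G)) ∨
    Nonempty (Subgroup.centralizer ({a} : Set G) ≃* Multiplicative (ℤ × ℤ)) := by
  obtain ⟨z, x, hx, p10, h | h⟩ := D.normal tf ha
  · exact .inl ((D.cj z).cent_lox tf hx p10 h.1 h.2)
  · exact (D.cj z).cent_par tf hx p10 h.1 h.2

/-- Commuting is transitive on nontrivial elements. -/
theorem Dsc.ct {a x y : G} (ha : a ≠ 1) (hx : x * a = a * x) (hy : y * a = a * y) :
    x * y = y * x := by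
  have hx' := Subgroup.mem_centralizer_singleton_iff.2 hx
  have hy' := Subgroup.mem_centralizer_singleton_iff.2 hy
  have : (⟨x, hx'⟩ : Subgroup.centralizer ({a} : Set G)) * ⟨y, hy'⟩ = ⟨y, hy'⟩ * ⟨x, hx'⟩ := by
    rcases D.cent tf a ha with h | ⟨⟨e⟩⟩
    · exact h.commGroup.mul_comm _ _
    · exact e.injective (by rw [map_mul, map_mul, mul_comm])
  exact congrArg Subtype.val this

theorem Dsc.mn_lox {a g : G} {x : S2} (hx : QuotientGroup.mk x = ρ a) (p10 : x 1 0 = 0)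
    (p01 : x 0 1 = 0) (hn : ‖x 0 0‖ ≠ 1) (h : a * (g * a * g⁻¹) = g * a * g⁻¹ * a) :
    g * a = a * g := by
  obtain ⟨y, hy⟩ := QuotientGroup.mk_surjective (ρ g)
  obtain ⟨w, hw⟩ := QuotientGroup.mk_surjective (ρ (g * a * g⁻¹))
  obtain ⟨w10, w01⟩ := lox_diag hx hw p10 p01 hn h
  obtain ⟨e, he, h1⟩ := lift_rel hw hy hy hx (inv_mul_cancel_right _ _)
  have hd := det_ent x
  have hy' := det_ent y
  have hw' := det_ent w
  have q00 := h1 0 0
  have q01 := h1 0 1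
  have q10 := h1 1 0
  have q11 := h1 1 1
  simp only [p10, p01, w10, w01, zero_mul, mul_zero, add_zero, zero_add, sub_zero]
    at q00 q01 q10 q11 hd hw'
  have ne : x 0 0 - x 1 1 ≠ 0 := fun d => hn (norm_sign (by linear_combination hd + x 0 0 * d))
  have e0 : e ≠ 0 := by rintro rfl; simp at he
  have k : ∀ v : ℂ, v * (e * (x 0 0 - x 1 1)) = 0 → v = 0 := fun v hv =>
    (mul_eq_zero.1 hv).resolve_right (mul_ne_zero e0 ne)
  have a1 : y 0 0 * y 0 1 = 0 := k _ (by linear_combination y 0 0 * q01 - y 0 1 * q00)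
  have a2 : y 1 0 * y 1 1 = 0 := k _ (by linear_combination y 1 0 * q11 - y 1 1 * q10)
  by_cases d : y 0 1 = 0
  · have d2 : y 1 0 = 0 := (mul_eq_zero.1 a2).resolve_right fun f => by simp [d, f] at hy'
    refine D.comm tf hy hx (Matrix.SpecialLinearGroup.ext _ _ fun i j => ?_)
    rw [mul_ent, mul_ent]
    fin_cases i <;> fin_cases j <;> simp [d, d2, p10, p01, mul_comm]
  · have d0 : y 0 0 = 0 := (mul_eq_zero.1 a1).resolve_right d
    have d1 : y 1 1 = 0 := (mul_eq_zero.1 a2).resolve_left fun f => by simp [d0, f] at hy'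
    have f : IsOfFinOrder (g * g) := D.ell (x := y * y) (by rw [QuotientGroup.mk_mul, hy, map_mul])
      (by simp [mul_ent, d0, d1]) (by simp [mul_ent, d0, d1]) (norm_sign (by
        rw [mul_ent, d0]
        rw [d0] at hy'
        linear_combination (1 - y 0 1 * y 1 0) * hy'))
    have : g = 1 := by_contra fun c => tf g c (by
      rw [← pow_two] at f
      exact f.of_pow two_ne_zero)
    simp [this]

omit tf in
theorem Dsc.no_scale {a g : G} {x y : S2} (hx : QuotientGroup.mk x = ρ a)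
    (hy : QuotientGroup.mk y = ρ g) (p10 : x 1 0 = 0) (p00 : x 0 0 = x 1 1) (p01 : x 0 1 ≠ 0)
    (y10 : y 1 0 = 0) : 1 ≤ ‖y 0 0‖ := by
  by_contra! lt
  have hy' := det_ent y
  have hd := det_ent x
  rw [y10, mul_zero, sub_zero] at hy'
  rw [p10, mul_zero, sub_zero] at hd
  have y0 : y 0 0 ≠ 0 := left_ne_zero_of_mul_eq_one hy'
  have key : ∀ n : ℕ, ∃ w : S2, QuotientGroup.mk w = ρ (g ^ n * a * (g ^ n)⁻¹) ∧ w 1 0 = 0 ∧
      w 0 0 = w 1 1 ∧ w 0 0 * w 0 1 = (y 0 0 ^ 2) ^ n * (x 0 0 * x 0 1) := by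
    intro n
    induction n with
    | zero => exact ⟨x, by simpa using hx, p10, p00, by simp⟩
    | succ n ih =>
      obtain ⟨w, h1, h2, h3, h4⟩ := ih
      refine ⟨y * w * y⁻¹, ?_, ?_, ?_, ?_⟩
      · simp only [QuotientGroup.mk_mul, QuotientGroup.mk_inv, h1, hy, map_mul, map_inv, pow_succ']
        group
      all_goals
        have i00 : y⁻¹ 0 0 = y 1 1 := by rw [SpecialLinearGroup.SL2_inv_expl]; rfl
        have i01 : y⁻¹ 0 1 = -y 0 1 := by rw [SpecialLinearGroup.SL2_inv_expl]; rfl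
        have i10 : y⁻¹ 1 0 = -y 1 0 := by rw [SpecialLinearGroup.SL2_inv_expl]; rfl
        have i11 : y⁻¹ 1 1 = y 0 0 := by rw [SpecialLinearGroup.SL2_inv_expl]; rfl
        simp only [mul_ent, i00, i01, i10, i11, y10, h2, ← h3]
      · ring
      · ring
      · linear_combination (y 0 0 ^ 2) * h4 + (w 0 0 * w 0 1 * y 0 0 ^ 2) * hy'
  choose w h1 h2 h3 h4 using key
  have n2 : ‖y 0 0 ^ 2‖ < 1 := by
    rw [norm_pow]
    exact pow_lt_one₀ (norm_nonneg _) lt two_ne_zero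
  have inj : Function.Injective fun n : ℕ => g ^ n * a * (g ^ n)⁻¹ := fun n m e => by
    obtain ⟨s, hs, k⟩ := lift_sign (x := w n) (y := w m) (by rw [h1, h1]; exact congrArg ρ e)
    have e1 : (y 0 0 ^ 2) ^ m = (y 0 0 ^ 2) ^ n :=
      mul_right_cancel₀ (mul_ne_zero (left_ne_zero_of_mul_eq_one hd) p01) (by
        rw [← h4, ← h4, k, k]
        linear_combination (w n 0 0 * w n 0 1) * hs)
    have e2 := congrArg norm e1
    rw [norm_pow, norm_pow (y 0 0 ^ 2)] at e2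
    exact (pow_right_injective₀ (norm_pos_iff.2 (pow_ne_zero 2 y0)) n2.ne e2).symm
  refine infinite_range_of_injective inj ((D (1 + ‖x 0 0 * x 0 1‖)).subset ?_)
  rintro _ ⟨n, rfl⟩
  refine ⟨w n, h1 n, (par_bd (h2 n) (h3 n) (by linarith [norm_nonneg (x 0 0 * x 0 1)]) ?_).2⟩
  rw [h4, norm_mul, norm_pow]
  have := mul_le_mul_of_nonneg_right (pow_le_one₀ (n := n) (norm_nonneg _) n2.le)
    (norm_nonneg (x 0 0 * x 0 1))
  linarith

theorem Dsc.mn_par {a g : G} {x : S2} (hx : QuotientGroup.mk x = ρ a) (p10 : x 1 0 = 0)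
    (p00 : x 0 0 = x 1 1) (p01 : x 0 1 ≠ 0) (h : a * (g * a * g⁻¹) = g * a * g⁻¹ * a) :
    g * a = a * g := by
  by_cases hg : g = 1
  · simp [hg]
  obtain ⟨y, hy⟩ := QuotientGroup.mk_surjective (ρ g)
  obtain ⟨w, hw⟩ := QuotientGroup.mk_surjective (ρ (g * a * g⁻¹))
  obtain ⟨w10, w00⟩ := par_comm hx hw p10 p00 p01 h
  obtain ⟨y10, -⟩ := par_tri hx hy hw p10 p00 p01 w10 w00 (inv_mul_cancel_right _ _)
  have hy' := det_ent y
  rw [y10, mul_zero, sub_zero] at hy'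
  have a1 := D.no_scale hx hy p10 p00 p01 y10
  have a2 := D.no_scale (g := g⁻¹) (y := y⁻¹) hx (by rw [QuotientGroup.mk_inv, hy, map_inv])
    p10 p00 p01 (by rw [SpecialLinearGroup.SL2_inv_expl]; exact neg_eq_zero.2 y10)
  have i00 : y⁻¹ 0 0 = y 1 1 := by rw [SpecialLinearGroup.SL2_inv_expl]; rfl
  rw [i00] at a2
  have m : ‖y 0 0‖ * ‖y 1 1‖ = 1 := by rw [← norm_mul, hy', norm_one]
  have n : ‖y 0 0‖ = 1 := le_antisymm (by nlinarith) a1
  obtain ⟨y00, -⟩ := (D.tri tf hg hy y10).resolve_right (not_not.2 n)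
  refine D.comm tf hy hx (Matrix.SpecialLinearGroup.ext _ _ fun i j => ?_)
  rw [mul_ent, mul_ent]
  fin_cases i <;> fin_cases j <;> simp [y10, p10, ← p00, ← y00, mul_comm, add_comm]

/-- Centralisers are malnormal. -/
theorem Dsc.mn {a g : G} (ha : a ≠ 1) (h : a * (g * a * g⁻¹) = g * a * g⁻¹ * a) :
    g * a = a * g := by
  obtain ⟨z, x, hx, p10, k | k⟩ := D.normal tf ha
  · exact (D.cj z).mn_lox tf hx p10 k.1 k.2 h
  · exact (D.cj z).mn_par tf hx p10 k.1 k.2 h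

end Pool.Agent.Work.MP_3d425c_gt.Lt
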